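import Pool.Agent.MHP.Stmts

/-!
# Squad MHP, row PLA: planting
-/

set_option autoImplicit false

namespace Pool.Agent.MHP.H36

open Pool.Agent.HMT Pool.Agent.MHP

theorem sprBool (g : ℕ) : Spr g (⊤ : SimpleGraph Bool) := by
  right
  refine ⟨?_, ?_⟩
  · have h := (⊤ : SimpleGraph Bool).colorable_of_fintype
    rwa [Fintype.card_bool] at h
  · intro X hX
    classical
    have h1 : Nat.card ((⊤ : SimpleGraph Bool).induce X).edgeSet ≤ (Nat.card X).choose 2 := by
      rw [Nat.card_eq_fintype_card, Nat.card_eq_fintype_card, ← SimpleGraph.edgeFinset_card]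
      exact SimpleGraph.card_edgeFinset_le_card_choose_two
    have h2 : Nat.card X ≤ 2 := by
      have h := Nat.card_le_card_of_injective (Subtype.val : X → Bool) Subtype.val_injective
      rwa [Nat.card_eq_fintype_card (α := Bool), Fintype.card_bool] at h
    have h3 : 1 ≤ Nat.card X := by
      haveI : Nonempty X := hX.to_subtype
      exact Nat.card_pos
    have h4 : (Nat.card X).choose 2 ≤ Nat.card X - 1 := by
      generalize Nat.card X = n at h2 h3
      interval_cases n <;> decide
    calc g * Nat.card ((⊤ : SimpleGraph Bool).induce X).edgeSet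
        ≤ g * (Nat.card X - 1) := Nat.mul_le_mul_left g (h1.trans h4)
      _ ≤ (g + 1) * (Nat.card X - 1) := Nat.mul_le_mul_right _ (Nat.le_succ g)

open Classical in
/-- the embedding of `A` into `plant A` -/
noncomputable def pp (A : PG) (v : A.V) : (plant A).V :=
  if h : v = A.r then Sum.inl true else Sum.inr ⟨v, h⟩

theorem pp_root (A : PG) : pp A A.r = Sum.inl true := by
  unfold pp
  rw [dif_pos rfl]

theorem pp_ne (A : PG) (v : A.V) (h : v ≠ A.r) : pp A v = Sum.inr ⟨v, h⟩ := by
  unfold pp
  rw [dif_neg h]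

theorem pp_adj (A : PG) (u v : A.V) : (plant A).G.Adj (pp A u) (pp A v) ↔ A.G.Adj u v := by
  by_cases hu : u = A.r
  · subst hu
    rw [pp_root]
    by_cases hv : v = A.r
    · subst hv
      rw [pp_root]
      constructor
      · intro h
        exact absurd h (SimpleGraph.irrefl _)
      · intro h
        exact absurd h (SimpleGraph.irrefl _)
    · rw [pp_ne A v hv]
      constructor
      · intro h
        exact h.2
      · intro h
        exact ⟨rfl, h⟩
  · rw [pp_ne A u hu]
    by_cases hv : v = A.r
    · subst hv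
      rw [pp_root]
      constructor
      · intro h
        exact (h.2 : A.G.Adj A.r u).symm
      · intro h
        exact ⟨rfl, h.symm⟩
    · rw [pp_ne A v hv]
      exact Iff.rfl

theorem pp_inj (A : PG) : Function.Injective (pp A) := by
  intro u v h
  by_cases hu : u = A.r
  · by_cases hv : v = A.r
    · rw [hu, hv]
    · rw [hu, pp_root, pp_ne A v hv] at h
      cases h
  · by_cases hv : v = A.r
    · rw [hv, pp_root, pp_ne A u hu] at h
      cases h
    · rw [pp_ne A u hu, pp_ne A v hv] at h
      exact congrArg Subtype.val (Sum.inr.inj h)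

theorem pp_ne_false (A : PG) (v : A.V) : pp A v ≠ Sum.inl false := by
  intro h
  by_cases hv : v = A.r
  · rw [hv, pp_root] at h
    cases h
  · rw [pp_ne A v hv] at h
    cases h

theorem pp_surj (A : PG) (x : (plant A).V) (hx : x ≠ Sum.inl false) : ∃ v, pp A v = x := by
  rcases x with b | v
  · cases b with
    | false => exact absurd rfl hx
    | true => exact ⟨A.r, pp_root A⟩
  · exact ⟨v.1, pp_ne A v.1 v.2⟩

/-- the embedding as an equivalence onto the vertices other than the new root -/
noncomputable def ee (A : PG) : A.V ≃ {x : (plant A).V // x ≠ Sum.inl false} :=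
  Equiv.ofBijective (fun v => ⟨pp A v, pp_ne_false A v⟩)
    ⟨fun _ _ h => pp_inj A (congrArg Subtype.val h), fun x => by
      obtain ⟨v, hv⟩ := pp_surj A x.1 x.2
      exact ⟨v, Subtype.ext hv⟩⟩

theorem ee_val (A : PG) (v : A.V) : (ee A v).1 = pp A v := rfl

theorem adj_ft (A : PG) : (plant A).G.Adj (Sum.inl false) (Sum.inl true) := by
  show (⊤ : SimpleGraph Bool).Adj false true
  simp

theorem adj_false (A : PG) (x : (plant A).V) (h : (plant A).G.Adj (Sum.inl false) x) :
    x = Sum.inl true := by
  rcases x with b | v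
  · cases b with
    | false => exact absurd h (SimpleGraph.irrefl _)
    | true => rfl
  · exact absurd h.1 (by decide)

theorem unplant (C A : PG) (φ : (plant C).G ≃g (plant A).G)
    (hφ : φ (Sum.inl false) = Sum.inl false) : PIso C A := by
  have h1 : φ (Sum.inl true) = Sum.inl true := by
    apply adj_false A
    rw [← hφ]
    exact φ.map_rel_iff.2 (adj_ft C)
  have h2 : ∀ a : (plant C).V, a ≠ Sum.inl false ↔ φ.toEquiv a ≠ Sum.inl false := by
    intro a
    rw [not_iff_not]
    constructor
    · rintro rfl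
      exact hφ
    · intro h
      apply φ.injective
      rw [hφ]
      exact h
  obtain ⟨ψ, hψ⟩ : ∃ ψ : C.V ≃ A.V, ψ = ((ee C).trans (φ.toEquiv.subtypeEquiv h2)).trans
    (ee A).symm := ⟨_, rfl⟩
  have h3 : ∀ v, pp A (ψ v) = φ (pp C v) := by
    intro v
    have h4 : ee A (ψ v) = φ.toEquiv.subtypeEquiv h2 (ee C v) := by
      rw [hψ]
      simp
    exact congrArg Subtype.val h4
  refine ⟨⟨ψ, ?_⟩, ?_⟩
  · intro u v
    rw [← pp_adj A, h3, h3, ← pp_adj C]
    exact φ.map_rel_iff
  · apply pp_inj A
    show pp A (ψ C.r) = pp A A.r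
    rw [h3, pp_root, pp_root, h1]

theorem reach_map {V W : Type} {G : SimpleGraph V} {H : SimpleGraph W} (f : V → W)
    (hf : ∀ a b, G.Adj a b → H.Reachable (f a) (f b)) {a b : V} (h : G.Reachable a b) :
    H.Reachable (f a) (f b) := by
  obtain ⟨p⟩ := h
  induction p with
  | nil => exact SimpleGraph.Reachable.refl _
  | cons hab _ ih => exact (hf _ _ hab).trans ih

/-- the retraction -/
def qq (A : PG) : (plant A).V → A.V
  | Sum.inl _ => A.r
  | Sum.inr v => v.1

theorem qq_pp (A : PG) (v : A.V) : qq A (pp A v) = v := by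
  by_cases hv : v = A.r
  · rw [hv, pp_root]
    rfl
  · rw [pp_ne A v hv]
    rfl

theorem reach_qq (A : PG) {x y : (plant A).V} (h : (plant A).G.Reachable x y) :
    A.G.Reachable (qq A x) (qq A y) := by
  apply reach_map (qq A) _ h
  rintro (a | u) (b | v) hab
  · exact SimpleGraph.Reachable.refl _
  · exact SimpleGraph.Adj.reachable hab.2
  · exact (SimpleGraph.Adj.reachable hab.2).symm
  · exact SimpleGraph.Adj.reachable hab

theorem reach_pp (A : PG) {u v : A.V} (h : A.G.Reachable u v) :
    (plant A).G.Reachable (pp A u) (pp A v) :=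
  reach_map (pp A) (fun a b hab => SimpleGraph.Adj.reachable ((pp_adj A a b).2 hab)) h

theorem reach_inl (A : PG) (b : Bool) : (plant A).G.Reachable (Sum.inl false) (Sum.inl b) := by
  cases b with
  | false => exact SimpleGraph.Reachable.refl _
  | true => exact (adj_ft A).reachable

theorem reach_iff (A : PG) (v : A.V) :
    (plant A).G.Reachable (Sum.inl false) (pp A v) ↔ A.G.Reachable A.r v := by
  constructor
  · intro h
    have h1 := reach_qq A h
    rwa [qq_pp] at h1
  · intro h
    refine (reach_inl A true).trans ?_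
    rw [← pp_root]
    exact reach_pp A h

theorem reach_inr (A : PG) (v : {v : A.V // v ≠ A.r}) :
    (plant A).G.Reachable (Sum.inl false) (Sum.inr v) ↔ A.G.Reachable A.r v.1 := by
  rw [← reach_iff A v.1, pp_ne A v.1 v.2]

/-- the component of a planted graph -/
def cmpE (B : PG) : (plant B).comp.V ≃ (plant B.comp).V where
  toFun x := match x with
    | ⟨Sum.inl b, _⟩ => Sum.inl b
    | ⟨Sum.inr v, h⟩ => Sum.inr ⟨⟨v.1, (reach_inr B v).1 h⟩,
        fun h' => v.2 (congrArg Subtype.val h')⟩
  invFun y := match y with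
    | Sum.inl b => ⟨Sum.inl b, reach_inl B b⟩
    | Sum.inr v => ⟨Sum.inr ⟨v.1.1, fun h' => v.2 (Subtype.ext h')⟩,
        (reach_inr B ⟨v.1.1, fun h' => v.2 (Subtype.ext h')⟩).2 v.1.2⟩
  left_inv := by rintro ⟨b | v, h⟩ <;> rfl
  right_inv := by rintro (b | v) <;> rfl

theorem cmp_plant (B : PG) : PIso (plant B).comp (plant B.comp) := by
  refine ⟨⟨cmpE B, ?_⟩, rfl⟩
  rintro ⟨a | u, ha⟩ ⟨b | v, hb⟩ <;> exact Iff.rfl

theorem edge_plant (C : PG) :
    Nat.card (plant C).G.edgeSet = Nat.card C.G.edgeSet + 1 := by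
  obtain ⟨x0, hx0⟩ : ∃ x0 : (plant C).V, x0 = Sum.inl false := ⟨_, rfl⟩
  obtain ⟨x1, hx1⟩ : ∃ x1 : (plant C).V, x1 = Sum.inl true := ⟨_, rfl⟩
  have h01 : (plant C).G.Adj x0 x1 := by
    rw [hx0, hx1]
    exact adj_ft C
  have hx : ∀ x, (plant C).G.Adj x0 x → x = x1 := by
    intro x h
    rw [hx0] at h
    rw [hx1]
    exact adj_false C x h
  have hs : ∀ x, x ≠ x0 → ∃ v, pp C v = x := by
    intro x h
    rw [hx0] at h
    exact pp_surj C x h
  have hp : ∀ v, pp C v ≠ x0 := by
    intro v
    rw [hx0]
    exact pp_ne_false C v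
  have h1 : (plant C).G.edgeSet = insert s(x0, x1) (Sym2.map (pp C) '' C.G.edgeSet) := by
    ext e
    induction e using Sym2.ind with
    | _ x y =>
      rw [SimpleGraph.mem_edgeSet, Set.mem_insert_iff, Set.mem_image]
      constructor
      · intro h
        by_cases hx' : x = x0
        · left
          subst hx'
          rw [hx y h]
        · by_cases hy : y = x0
          · left
            subst hy
            rw [hx x h.symm]
            exact Sym2.eq_swap
          · right
            obtain ⟨u, rfl⟩ := hs x hx'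
            obtain ⟨v, rfl⟩ := hs y hy
            exact ⟨s(u, v), (pp_adj C u v).1 h, rfl⟩
      · rintro (h | ⟨e, he, h⟩)
        · rw [Sym2.eq_iff] at h
          rcases h with ⟨h1, h2⟩ | ⟨h1, h2⟩
          · rw [h1, h2]
            exact h01
          · rw [h1, h2]
            exact h01.symm
        · induction e using Sym2.ind with
          | _ u v =>
            rw [Sym2.map_mk] at h
            have h2 : (plant C).G.Adj (pp C u) (pp C v) := (pp_adj C u v).2 he
            rw [← SimpleGraph.mem_edgeSet] at h2 ⊢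
            rw [← h]
            exact h2
  have h2 : s(x0, x1) ∉ Sym2.map (pp C) '' C.G.edgeSet := by
    rintro ⟨e, -, h⟩
    induction e using Sym2.ind with
    | _ u v =>
      rw [Sym2.map_mk, Sym2.eq_iff] at h
      rcases h with ⟨h, -⟩ | ⟨-, h⟩
      · exact hp u h
      · exact hp v h
  have h3 : C.G.edgeSet.Finite := Set.toFinite _
  rw [Nat.card_coe_set_eq, Nat.card_coe_set_eq, h1,
    Set.ncard_insert_of_notMem h2 (h3.image _),
    Set.ncard_image_of_injective _ (Sym2.map.injective (pp_inj C))]

theorem pla (asc : AscStmt) (spg : SpgStmt) (cis : CisStmt) : PlaStmt := by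
  obtain ⟨c1, c2, c3, c4, c5, c6, c7⟩ := cis
  refine ⟨?_, ?_, ?_, ?_, ?_⟩
  · intro A hA
    refine ⟨?_, ?_⟩
    · have : Nonempty (plant A).V := ⟨Sum.inl false⟩
      refine ⟨fun x y => ?_⟩
      have h : ∀ z : (plant A).V, (plant A).G.Reachable (Sum.inl false) z := by
        intro z
        by_cases hz : z = Sum.inl false
        · subst hz
          exact SimpleGraph.Reachable.refl _
        · obtain ⟨v, rfl⟩ := pp_surj A z hz
          exact (reach_iff A v).2 (hA.preconnected _ _)
      exact (h x).symm.trans (h y)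
    · intro h
      have h1 := adj_ft A
      rw [h] at h1
      exact h1
  · intro A g hA
    exact spg g A.V Bool ⊤ true A.G A.r (sprBool g) hA
  · rintro A B hA h
    obtain ⟨φ, hφ⟩ := c3 _ _ _ (c2 _ _ (cmp_plant B)) h
    exact unplant B.comp A φ hφ
  · intro A B h
    rw [c7 _ _ (cmp_plant B), edge_plant, edge_plant]
    omega
  · intro X
    refine ⟨PG.mk (X.V ⊕ {v : Bool // v ≠ false}) (glue X.G X.r ⊤ false)
      (Sum.inr ⟨true, by decide⟩), ?_, ?_, ?_⟩
    · have h : ∀ v, (glue X.G X.r (⊤ : SimpleGraph Bool) false).Adj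
          (Sum.inr ⟨true, by decide⟩) v → v = Sum.inl X.r := by
        rintro (a | ⟨b, hb⟩) hv
        · rw [hv.1]
        · exfalso
          cases b with
          | false => exact hb rfl
          | true => exact absurd hv (SimpleGraph.irrefl _)
      intro v w hv hw
      rw [h v hv, h w hw]
    · intro g hg
      exact spg g Bool X.V X.G X.r ⊤ false hg (sprBool g)
    · intro A
      obtain ⟨e, he⟩ := asc X.V Bool A.V false true (by decide) A.r
      exact ⟨⟨e, fun {a b} => he X.G X.r ⊤ A.G a b⟩⟩

end Pool.Agent.MHP.H36
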